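import Pool.Agent.H71.O2.Nuc

set_option autoImplicit false

/-!
End game (helper32): if all `th(a, b)` fix `a` and `b` in an automorphic loop in which only `e` is its
own inverse, then the loop is a Moufang loop with nuclear commutators; if it is simple, it is
commutative or associative.
-/

namespace ALoop

open Equiv

variable {Q : Type*} {G : Subgroup (Perm Q)} {L : Q → Perm Q} {J : Perm Q} {e : Q}

/-- `al(x, y) = L_(xy)⁻¹ L_x L_y` -/
def alp (L : Q → Perm Q) (x y : Q) : Perm Q := (L (L x y))⁻¹ * L x * L y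

set_option linter.unusedSectionVars false

namespace AL0

section EG

variable (h : AL0 G L J e) (k1 : ∀ a b, Th L J a b a = a) (k2 : ∀ a b, Th L J a b b = b)

include h k1 in
theorem sL1 (a b : Q) : Th L J a b * L a = L a * Th L J a b :=
  h.comL (h.Th_mem a b) (h.Th_e a b) (k1 a b)

include h k1 in
theorem sR1 (a b : Q) : Th L J a b * Rt L J a = Rt L J a * Th L J a b :=
  h.comR (h.Th_mem a b) (h.Th_e a b) (k1 a b)

include h k2 in
theorem sL2 (a b : Q) : Th L J a b * L b = L b * Th L J a b :=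
  h.comL (h.Th_mem a b) (h.Th_e a b) (k2 a b)

include h k2 in
theorem sR2 (a b : Q) : Th L J a b * Rt L J b = Rt L J b * Th L J a b :=
  h.comR (h.Th_mem a b) (h.Th_e a b) (k2 a b)

include h k2 in
/-- `th(a, b⁻¹) = th(a, b)⁻¹` -/
theorem sJ2 (a b : Q) : Th L J a (J b) = (Th L J a b)⁻¹ := by
  have h1 := h.K1 a b
  have c : Th L J a b * Tx L J b = Tx L J b * Th L J a b := by
    unfold Tx
    have c1 := h.sL2 k2 a b
    have c2 := h.sR2 k2 a b
    calc Th L J a b * (L b * (Rt L J b)⁻¹) = (Th L J a b * L b) * (Rt L J b)⁻¹ := by group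
      _ = L b * (Rt L J b)⁻¹ * (Rt L J b * Th L J a b) * (Rt L J b)⁻¹ := by rw [c1]; group
      _ = L b * (Rt L J b)⁻¹ * Th L J a b := by rw [← c2]; group
  rw [c] at h1
  have h2 := mul_left_cancel h1
  rw [← h2, inv_inv]

include h k2 in
/-- `R_b R_(b⁻¹) = 1` -/
theorem RRJ1 (b : Q) : Rt L J b * Rt L J (J b) = 1 := by
  have hmem : Rt L J b * Rt L J (J b) ∈ G := G.mul_mem (h.memR _) (h.memR _)
  have he : (Rt L J b * Rt L J (J b)) e = e := by
    rw [Perm.mul_apply, h.Rt_e, h.Rt_app, h.JL]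
  have hc : ∀ a, (Rt L J b * Rt L J (J b)) * L a = L a * (Rt L J b * Rt L J (J b)) := by
    intro a
    have hf : Th L J a b (J b) = J b := h.fixJ (h.Th_mem a b) (h.Th_e a b) (k2 a b)
    have c1 : Th L J a b * Rt L J (J b) = Rt L J (J b) * Th L J a b :=
      h.comR (h.Th_mem a b) (h.Th_e a b) hf
    have e1 : (L a)⁻¹ * Rt L J b * L a = Rt L J b * (Th L J a b)⁻¹ := by unfold Th; group
    have e2 : (L a)⁻¹ * Rt L J (J b) * L a = Rt L J (J b) * (Th L J a (J b))⁻¹ := by
      unfold Th; group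
    rw [h.sJ2 k2 a b, inv_inv] at e2
    have e3 : (L a)⁻¹ * (Rt L J b * Rt L J (J b)) * L a = Rt L J b * Rt L J (J b) := by
      calc (L a)⁻¹ * (Rt L J b * Rt L J (J b)) * L a =
          ((L a)⁻¹ * Rt L J b * L a) * ((L a)⁻¹ * Rt L J (J b) * L a) := by group
        _ = Rt L J b * (Th L J a b)⁻¹ * (Rt L J (J b) * Th L J a b) := by rw [e1, e2]
        _ = Rt L J b * Rt L J (J b) := by rw [← c1]; group
    calc (Rt L J b * Rt L J (J b)) * L a =
        L a * ((L a)⁻¹ * (Rt L J b * Rt L J (J b)) * L a) := by group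
      _ = L a * (Rt L J b * Rt L J (J b)) := by rw [e3]
  ext a
  have h1 := congrArg (fun f : Perm Q => f e) (hc a)
  simp only [Perm.mul_apply] at h1 he
  rw [h.Le, he, h.Le] at h1
  rw [Perm.mul_apply, h1, Perm.one_apply]

include h k2 in
theorem RJi (b : Q) : Rt L J (J b) = (Rt L J b)⁻¹ :=
  eq_inv_of_mul_eq_one_right (h.RRJ1 k2 b)

include h k2 in
theorem LJi (b : Q) : L (J b) = (L b)⁻¹ := by
  apply eq_inv_of_mul_eq_one_right
  have h1 := h.RRJ1 k2 (J b)
  rw [h.JJ] at h1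
  have e1 : L b = J * Rt L J (J b) * J := by
    have := h.JRJ (J b)
    rw [h.JJ] at this
    exact this.symm
  calc L b * L (J b) = (J * Rt L J (J b) * J) * (J * Rt L J b * J) := by rw [← e1, h.JRJ b]
    _ = J * Rt L J (J b) * (J * J) * Rt L J b * J := by group
    _ = J * (Rt L J (J b) * Rt L J b) * J := by rw [h.JJ1]; group
    _ = 1 := by rw [h1, mul_one, h.JJ1]

include h k1 k2 in
/-- `L_a R_b = R_b L_a th(a, b)` -/
theorem LR (a b : Q) : L a * Rt L J b = Rt L J b * L a * Th L J a b := by unfold Th; group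

include h k1 k2 in
theorem sJ1 (a b : Q) : Th L J (J a) b = (Th L J a b)⁻¹ := by
  have c1 := h.sL1 k1 a b
  have c2 := h.sR2 k2 a b
  have e1 : Th L J (J a) b = L a * ((Rt L J b)⁻¹ * (L a)⁻¹ * Rt L J b) := by
    unfold Th; rw [h.LJi k2 a]; group
  have e2 : (Rt L J b)⁻¹ * (L a)⁻¹ * Rt L J b = (Th L J a b)⁻¹ * (L a)⁻¹ := by
    have e3 : Th L J a b = (L a)⁻¹ * (Rt L J b)⁻¹ * L a * Rt L J b := rfl
    have e4 : L a * Th L J a b = (Rt L J b)⁻¹ * L a * Rt L J b := by rw [e3]; group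
    calc (Rt L J b)⁻¹ * (L a)⁻¹ * Rt L J b = ((Rt L J b)⁻¹ * L a * Rt L J b)⁻¹ := by group
      _ = (Th L J a b)⁻¹ * (L a)⁻¹ := by rw [← e4]; group
  rw [e1, e2]
  calc L a * ((Th L J a b)⁻¹ * (L a)⁻¹) = L a * (L a * Th L J a b)⁻¹ := by group
    _ = L a * (Th L J a b * L a)⁻¹ := by rw [c1]
    _ = (Th L J a b)⁻¹ := by group

include h k1 k2 in
theorem sSw (a b : Q) : Th L J b a = (Th L J a b)⁻¹ := by
  have h1 := h.Th_inv a b
  rw [h.sJ1 k1 k2, h.sJ2 k2, inv_inv] at h1
  exact h1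

include h in
theorem alp_mem (x y : Q) : alp L x y ∈ G :=
  G.mul_mem (G.mul_mem (G.inv_mem (h.memL _)) (h.memL _)) (h.memL _)

include h in
theorem alp_e (x y : Q) : alp L x y e = e := by
  unfold alp
  rw [Perm.mul_apply, Perm.mul_apply, h.Le, Perm.inv_eq_iff_eq, h.Le]

include h in
theorem alp_x (x y : Q) : alp L x y x = x := by
  have h1 := congrArg (fun f : Perm Q => f y) (h.flex x)
  simp only [Perm.mul_apply] at h1
  rw [h.Rt_app, h.Rt_app] at h1
  unfold alp
  rw [Perm.mul_apply, Perm.mul_apply, Perm.inv_eq_iff_eq, h1]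

include h k2 in
theorem alp_xy (x y : Q) : alp L x y (L x y) = L x y := by
  have e1 : alp L (J y) (J x) = L (L x y) * (alp L x y)⁻¹ * (L (L x y))⁻¹ := by
    unfold alp
    rw [← h.aaip, h.LJi k2, h.LJi k2, h.LJi k2]; group
  have h1 := h.alp_e (J y) (J x)
  rw [e1, Perm.mul_apply, Perm.mul_apply, h.L_inv_e, ← Perm.eq_inv_iff_eq, h.L_inv_e,
    Perm.inv_eq_iff_eq] at h1
  have h2 := h.fixJ (h.alp_mem x y) (h.alp_e x y) h1.symm
  rw [h.JJ] at h2
  exact h2

include h k2 in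
theorem alp_y (x y : Q) : alp L x y y = y := by
  have c := h.comL (h.alp_mem x y) (h.alp_e x y) (h.alp_x x y)
  have h1 := congrArg (fun f : Perm Q => f y) c
  simp only [Perm.mul_apply] at h1
  rw [h.alp_xy k2] at h1
  exact ((L x).injective h1).symm

include h k2 in
theorem alp_J (x y : Q) : alp L (J y) (J x) = (alp L x y)⁻¹ := by
  have c := h.comL (h.alp_mem x y) (h.alp_e x y) (h.alp_xy k2 x y)
  unfold alp at c ⊢
  rw [← h.aaip, h.LJi k2, h.LJi k2, h.LJi k2]
  have c2 : L (L x y) * ((L (L x y))⁻¹ * L x * L y)⁻¹ * (L (L x y))⁻¹ =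
      ((L (L x y))⁻¹ * L x * L y)⁻¹ := by
    calc L (L x y) * ((L (L x y))⁻¹ * L x * L y)⁻¹ * (L (L x y))⁻¹ =
        L (L x y) * (L (L x y) * ((L (L x y))⁻¹ * L x * L y))⁻¹ := by group
      _ = L (L x y) * (((L (L x y))⁻¹ * L x * L y) * L (L x y))⁻¹ := by rw [c]
      _ = _ := by group
  rw [← c2]; group

include h k2 in
/-- `R_(xy) = al(x, y) R_y R_x` -/
theorem Rxy (x y : Q) : Rt L J (L x y) = alp L x y * Rt L J y * Rt L J x := by
  have h1 : alp L x y = J * alp L x y * J := by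
    rw [← h.comJ _ (h.alp_mem x y) (h.alp_e x y), mul_assoc, h.JJ1, mul_one]
  have h2 : J * (L (L x y))⁻¹ * J = Rt L J (L x y) := by
    rw [← h.LJi k2]; rfl
  have h3 : J * L x * J = (Rt L J x)⁻¹ := by rw [h.JLJ, h.RJi k2]
  have h4 : J * L y * J = (Rt L J y)⁻¹ := by rw [h.JLJ, h.RJi k2]
  have h5 : J * alp L x y * J = Rt L J (L x y) * (Rt L J x)⁻¹ * (Rt L J y)⁻¹ := by
    rw [← h2, ← h3, ← h4]
    unfold alp
    calc J * ((L (L x y))⁻¹ * L x * L y) * J =
        J * (L (L x y))⁻¹ * 1 * L x * 1 * L y * J := by group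
      _ = J * (L (L x y))⁻¹ * (J * J) * L x * (J * J) * L y * J := by rw [h.JJ1]
      _ = _ := by group
  rw [h1, h5]; group

include h k1 k2 in
/-- (F1) -/
theorem F1 (w y z : Q) : alp L y z w = Th L J (L w (J y)) z w := by
  obtain ⟨x, hx⟩ : ∃ x, x = L w (J y) := ⟨_, rfl⟩
  have hxy : L x y = w := by
    have h1 : Rt L J y (Rt L J (J y) w) = w := by
      rw [← Perm.mul_apply, h.RRJ1 k2, Perm.one_apply]
    rw [h.Rt_app, h.Rt_app, ← hx] at h1
    exact h1
  rw [← hx]
  have e1 : L x (L y z) = Rt L J z (Th L J x z w) := by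
    calc L x (L y z) = (L x * Rt L J z) y := by rw [Perm.mul_apply, h.Rt_app]
      _ = (Rt L J z * (L x * Th L J x z)) y := by rw [h.LR k1 k2, mul_assoc]
      _ = (Rt L J z * (Th L J x z * L x)) y := by rw [h.sL1 k1]
      _ = Rt L J z (Th L J x z w) := by simp only [Perm.mul_apply]; rw [hxy]
  have c := h.comR (h.alp_mem y z) (h.alp_e y z) (h.alp_y k2 y z)
  have e2 : L x (L y z) = Rt L J z (alp L y z w) := by
    calc L x (L y z) = Rt L J (L y z) x := by rw [h.Rt_app]
      _ = (alp L y z * Rt L J z * Rt L J y) x := by rw [h.Rxy k2]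
      _ = (Rt L J z * alp L y z * Rt L J y) x := by rw [c]
      _ = Rt L J z (alp L y z w) := by
          simp only [Perm.mul_apply]; rw [h.Rt_app y x, hxy]
  exact (Rt L J z).injective (e2.symm.trans e1)

include h k1 k2 in
/-- (F3) -/
theorem F3 (w y z : Q) : (alp L y z)⁻¹ w = Th L J y (L w z) w := by
  rw [← h.alp_J k2 y z, h.F1 k1 k2, h.JJ, h.sJ2 k2, ← h.sSw k1 k2]

include h k1 k2 in
/-- (F4) -/
theorem F4 (w y z : Q) : (alp L y z)⁻¹ w = Th L J (L (J z) w) y w := by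
  obtain ⟨x, hx⟩ : ∃ x, x = L (J z) w := ⟨_, rfl⟩
  have hzx : L z x = w := by rw [hx, h.LJi k2, apply_inv']
  rw [← hx]
  have e1 : L (L y z) x = L y ((alp L y z)⁻¹ w) := by
    have c := h.comL (h.alp_mem y z) (h.alp_e y z) (h.alp_y k2 y z)
    have e3 : L (L y z) = L y * L z * (alp L y z)⁻¹ := by unfold alp; group
    have c' : L z * (alp L y z)⁻¹ = (alp L y z)⁻¹ * L z := by
      rw [mul_inv_eq_iff_eq_mul, mul_assoc, ← c]; group
    rw [e3, mul_assoc, c']
    simp only [Perm.mul_apply]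
    rw [hzx]
  have e2 : L (L y z) x = L y (Th L J x y w) := by
    have c := h.sR1 k1 x y
    have e4 : Rt L J x * L y = L y * Rt L J x * Th L J x y := by
      rw [h.LR k1 k2 y x, h.sSw k1 k2 x y]; group
    calc L (L y z) x = (Rt L J x * L y) z := by rw [Perm.mul_apply, h.Rt_app]
      _ = (L y * (Rt L J x * Th L J x y)) z := by rw [e4, mul_assoc]
      _ = (L y * (Th L J x y * Rt L J x)) z := by rw [c]
      _ = L y (Th L J x y w) := by
          simp only [Perm.mul_apply]; rw [h.Rt_app x z, hzx]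
  exact (L y).injective (e1.symm.trans e2)

include h k1 k2 in
/-- (G1) -/
theorem G1 (w y z : Q) : Th L J y (L w z) w = Th L J y ((L w)⁻¹ z) w := by
  rw [← h.F3 k1 k2, h.F4 k1 k2, h.sSw k1 k2 y, ← h.sJ2 k2, h.aaip, h.JJ, h.LJi k2]

include h k1 k2 in
theorem G2 (w y z : Q) (m : ℕ) :
    Th L J y ((L w ^ (2 * m + 1)) z) w = Th L J y (L w z) w := by
  induction m with
  | zero => simp
  | succ m ih =>
    have h1 := h.G1 k1 k2 w y ((L w ^ (2 * m + 2)) z)
    have h2 : L w ((L w ^ (2 * m + 2)) z) = (L w ^ (2 * (m + 1) + 1)) z := by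
      rw [← Perm.mul_apply, ← pow_succ']; rfl
    have h3 : (L w)⁻¹ ((L w ^ (2 * m + 2)) z) = (L w ^ (2 * m + 1)) z := by
      rw [Perm.inv_eq_iff_eq, ← Perm.mul_apply, ← pow_succ']
    rw [h2, h3] at h1
    rw [h1, ih]

include h k1 k2 in
/-- (G3) -/
theorem G3 (hodd : ∀ x, ∃ n, Odd n ∧ L x ^ n = 1) (w y z : Q) :
    Th L J y (L w z) w = Th L J y z w := by
  obtain ⟨n, ⟨m, hm⟩, hn⟩ := hodd w
  have h1 := h.G2 k1 k2 w y z m
  rw [← hm, hn, Perm.one_apply] at h1
  exact h1.symm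

include h k1 k2 in
theorem alp_eq (hodd : ∀ x, ∃ n, Odd n ∧ L x ^ n = 1) (y z : Q) : alp L y z = Th L J z y := by
  ext w
  rw [h.F1 k1 k2, h.sSw k1 k2 z (L w (J y)), ← h.sJ1 k1 k2 z, h.G3 k1 k2 hodd, h.sJ1 k1 k2,
    h.sJ2 k2, inv_inv]

include h k1 k2 in
theorem Lxy (hodd : ∀ x, ∃ n, Odd n ∧ L x ^ n = 1) (x y : Q) :
    L (L x y) = L x * L y * Th L J x y := by
  have h1 := h.alp_eq k1 k2 hodd x y
  rw [h.sSw k1 k2 x y] at h1
  rw [← inv_inv (Th L J x y), ← h1]
  unfold alp; group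

include h k1 k2 in
/-- Moufang: `(xp)(qx) = x((pq)x)` -/
theorem mouf (hodd : ∀ x, ∃ n, Odd n ∧ L x ^ n = 1) (x p : Q) :
    L (L x p) * Rt L J x = L x * Rt L J x * L p := by
  have c : Th L J x p * Rt L J x = Rt L J x * Th L J x p := h.sR1 k1 x p
  rw [h.Lxy k1 k2 hodd x p]
  calc L x * L p * Th L J x p * Rt L J x = L x * (L p * Rt L J x) * Th L J x p := by
        rw [mul_assoc, c]; group
    _ = L x * (Rt L J x * L p * Th L J p x) * Th L J x p := by rw [h.LR k1 k2 p x]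
    _ = L x * Rt L J x * L p := by rw [h.sSw k1 k2 x p]; group

include h k1 k2 in
theorem mouf' (hodd : ∀ x, ∃ n, Odd n ∧ L x ^ n = 1) (x p q : Q) :
    (L x * Rt L J x) (L p q) = L (L x p) (Rt L J x q) := by
  rw [← Perm.mul_apply, ← h.mouf k1 k2 hodd, Perm.mul_apply]

include h k1 k2 in
theorem mouf_inv (hodd : ∀ x, ∃ n, Odd n ∧ L x ^ n = 1) (x p q : Q) :
    (L x * Rt L J x)⁻¹ (L p q) = L ((L x)⁻¹ p) ((Rt L J x)⁻¹ q) := by
  rw [Perm.inv_eq_iff_eq, h.mouf' k1 k2 hodd, apply_inv', apply_inv']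

include h k1 k2 in
/-- commutators are nuclear -/
theorem nuc (hodd : ∀ x, ∃ n, Odd n ∧ L x ^ n = 1) (x y : Q) (p q : Q) :
    L (L p q) ((Rt L J (L x y))⁻¹ (L y x)) = L p (L q ((Rt L J (L x y))⁻¹ (L y x))) := by
  obtain ⟨V, hV⟩ : ∃ V, V = (Rt L J (L x y))⁻¹ * Rt L J x * Rt L J y := ⟨_, rfl⟩
  obtain ⟨W, hW⟩ : ∃ W, W = (L (L x y) * Rt L J (L x y))⁻¹ * (L x * Rt L J x) *
    (L y * Rt L J y) := ⟨_, rfl⟩
  have hWV : ∀ p q, W (L p q) = L (alp L x y p) (V q) := by
    intro p q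
    rw [hW, hV]
    unfold alp
    simp only [Perm.mul_apply]
    have h1 := h.mouf' k1 k2 hodd y p q
    have h2 := h.mouf' k1 k2 hodd x (L y p) (Rt L J y q)
    have h3 := h.mouf_inv k1 k2 hodd (L x y) (L x (L y p)) (Rt L J x (Rt L J y q))
    simp only [Perm.mul_apply] at h1 h2
    rw [h1, h2, h3]
  obtain ⟨c, hc⟩ : ∃ c, c = (Rt L J (L x y))⁻¹ (L y x) := ⟨_, rfl⟩
  rw [← hc]
  have hVe : V e = c := by
    rw [hV, hc]
    simp only [Perm.mul_apply]
    rw [h.Rt_e, h.Rt_app x y]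
  have h1 : ∀ q, W q = V q := by
    intro q
    have := hWV e q
    rw [h.Le1, Perm.one_apply, h.alp_e, h.Le1, Perm.one_apply] at this
    exact this
  have h2 : ∀ p, V p = L (alp L x y p) c := by
    intro p
    have := hWV p e
    rw [h.Le, hVe, h1] at this
    exact this
  have h3 : ∀ p q, alp L x y (L p q) = L (alp L x y p) (alp L x y q) := by
    intro p q
    have := congrArg (fun f : Perm Q => f (alp L x y q))
      (h.equi _ (h.alp_mem x y) (h.alp_e x y) p)
    simp only [Perm.mul_apply] at this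
    rw [inv_apply'] at this
    exact this
  have h4 : ∀ p q, L (L (alp L x y p) (alp L x y q)) c = L (alp L x y p) (L (alp L x y q) c) := by
    intro p q
    have e1 := hWV p q
    rw [h1, h2, h2, h3] at e1
    exact e1
  have h5 := h4 ((alp L x y)⁻¹ p) ((alp L x y)⁻¹ q)
  rw [apply_inv', apply_inv'] at h5
  exact h5

include h k1 k2 in
/-- right nuclear elements are middle nuclear -/
theorem mid_of_right (hodd : ∀ x, ∃ n, Odd n ∧ L x ^ n = 1) {c : Q}
    (hc : ∀ p q, L (L p q) c = L p (L q c)) (a b : Q) : L (L a c) b = L a (L c b) := by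
  have h1 : Th L J a c = 1 := by
    have h2 : L a * Rt L J c = Rt L J c * L a := by
      ext q
      rw [Perm.mul_apply, Perm.mul_apply, h.Rt_app, h.Rt_app]
      exact (hc a q).symm
    have h3 := h.LR k1 k2 a c
    rw [h2] at h3
    exact (mul_eq_left.1 h3.symm)
  rw [h.Lxy k1 k2 hodd, h1, mul_one, Perm.mul_apply]

include h k1 k2 in
/-- if only `e` is its own inverse then all `L x` have odd order -/
theorem L_odd [Finite Q] (hfix : ∀ x, J x = x → x = e) (x : Q) : ∃ n, Odd n ∧ L x ^ n = 1 := by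
  have hal : ∀ k : ℕ, L ((L x ^ k) e) = L x ^ k := by
    intro k
    induction k with
    | zero => rw [pow_zero, Perm.one_apply, h.Le1]
    | succ k ih =>
      obtain ⟨u, hu⟩ : ∃ u, u = (L x ^ k) e := ⟨_, rfl⟩
      have e1 : (L x ^ (k + 1)) e = L u x := by
        rw [pow_succ, Perm.mul_apply, h.Le, hu, ih]
      have e2 : alp L u x = 1 := by
        have hfixx : ∀ g ∈ G, g e = e → g x = x → g (J u) = J u := by
          intro g hg hge hgx
          have c := h.comL hg hge hgx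
          have c2 : g * L x ^ k = L x ^ k * g :=
            ((show Commute g (L x) from c).pow_right k).eq
          have c3 := congrArg (fun f : Perm Q => f e) c2
          simp only [Perm.mul_apply] at c3
          rw [hge, ← hu] at c3
          exact h.fixJ hg hge c3
        ext w
        rw [h.F1 k1 k2, Perm.one_apply]
        obtain ⟨v, hv⟩ : ∃ v, v = L w (J u) := ⟨_, rfl⟩
        rw [← hv]
        have f1 := k1 v x
        have f2 := hfixx _ (h.Th_mem v x) (h.Th_e v x) (k2 v x)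
        have f3 := h.fixJ (h.Th_mem v x) (h.Th_e v x) f2
        rw [h.JJ] at f3
        have f4 : L v u = w := by
          have g1 : Rt L J u (Rt L J (J u) w) = w := by
            rw [← Perm.mul_apply, h.RRJ1 k2, Perm.one_apply]
          rw [h.Rt_app, h.Rt_app, ← hv] at g1
          exact g1
        have f5 := congrArg (fun f : Perm Q => f u) (h.sL1 k1 v x)
        simp only [Perm.mul_apply] at f5
        rw [f3, f4] at f5
        exact f5
      have e3 : L (L u x) = L u * L x * (alp L u x)⁻¹ := by unfold alp; group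
      rw [e1, e3, e2, inv_one, mul_one, hu, ih, pow_succ]
  refine ⟨orderOf (L x), ?_, pow_orderOf_eq_one _⟩
  by_contra hev
  rw [Nat.not_odd_iff_even] at hev
  obtain ⟨m, hm⟩ := hev
  have h0 : 0 < orderOf (L x) := orderOf_pos _
  obtain ⟨z, hz⟩ : ∃ z, z = (L x ^ m) e := ⟨_, rfl⟩
  have h1 : L z = L x ^ m := by rw [hz]; exact hal m
  have h2 : L z z = e := by
    have h3 : L z * L z = 1 := by rw [h1, ← pow_add, ← hm, pow_orderOf_eq_one]
    have h4 := congrArg (fun f : Perm Q => f e) h3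
    simp only [Perm.mul_apply] at h4
    rw [h.Le, Perm.one_apply] at h4
    exact h4
  have h3 : J z = z := by
    rw [← h.LJ z] at h2
    exact ((L z).injective h2).symm
  have h4 := hfix z h3
  rw [h4, h.Le1] at h1
  have h5 := orderOf_dvd_of_pow_eq_one h1.symm
  have h6 := Nat.le_of_dvd (by omega) h5
  omega

end EG

end AL0

/-- END GAME: K7 gives a commutative loop or a group -/
theorem AL.end_game [Finite Q] (h : AL G L J e) (hfix : ∀ x, J x = x → x = e)
    (k1 : ∀ a b, Th L J a b a = a) (k2 : ∀ a b, Th L J a b b = b) :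
    (∀ x, Rt L J x = L x) ∨ Assoc L := by
  have h0 := h.al0
  have hodd := h0.L_odd k1 k2 hfix
  by_cases hc : ∀ x y, L x y = L y x
  · left
    intro x
    ext y
    rw [h0.Rt_app, hc]
  · right
    push Not at hc
    obtain ⟨x, y, hxy⟩ := hc
    refine h.assoc_of_mid (s := (Rt L J (L x y))⁻¹ (L y x)) (fun hs => hxy ?_)
      (fun a b => h0.mid_of_right k1 k2 hodd (h0.nuc k1 k2 hodd x y) a b)
    rw [Perm.inv_eq_iff_eq, h0.Rt_e] at hs
    exact hs.symm

end ALoop
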