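import Pool.Agent.H32.EG.End
import Pool.Agent.H38.O2.Main

set_option autoImplicit false

/-!
Assembly: K7 (`th(a, b)` fixes `b`) in the non-associative case gives associativity.
-/

namespace ALoop

open Equiv

variable {Q : Type*} {G : Subgroup (Perm Q)} {L : Q → Perm Q} {J : Perm Q} {e : Q}

theorem AL.odd_of_K7 [Finite Q] (h : AL G L J e) (hfix : ∀ x, J x = x → x = e)
    (k7 : ¬ Assoc L → ∀ a b, Th L J a b b = b) : Assoc L := by
  by_contra hna
  have h0 := h.al0
  have k2 := k7 hna
  have k1 : ∀ a b, Th L J a b a = a := by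
    intro a b
    have h1 := k2 (J b) (J a)
    rw [h0.Th_inv, Perm.inv_eq_iff_eq] at h1
    have h2 := h0.fixJ (h0.Th_mem a b) (h0.Th_e a b) h1.symm
    rwa [h0.JJ] at h2
  rcases h.end_game hfix k1 k2 with hc | hc
  · apply hna
    apply h.comm_assoc
    intro q
    rw [h0.JLJ, hc]
  · exact hna hc

end ALoop
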